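import Pool.Agent.Lib_helper28.A1.T3

/-!
# MP_859019, project A1: minimality, uniqueness and existence of `S_J(H)`; the shifted position
-/

set_option autoImplicit false
set_option linter.unusedSectionVars false
set_option linter.unusedVariables false

open scoped ComplexOrder Kronecker

namespace Pool.Agent.A1

open Matrix
open Pool.Agent.Lib_helper59.Lieb (rtr rtr_add rtr_sub rtr_smul rtr_mul_comm dg)

variable {n : Type*} [Fintype n] [DecidableEq n]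

section

variable {J H H₁ H₂ S S₁ S₂ : Matrix n n ℂ}

theorem psd_sandwich (hJ : J.IsHermitian) (hS : S.PosSemidef) {D : Matrix n n ℂ}
    (hD : D.IsHermitian) : (D * (J * S * J) * D).PosSemidef := by
  have h3 := hS.mul_mul_conjTranspose_same (D * J)
  have e : D * J * S * (D * J)ᴴ = D * (J * S * J) * D := by
    rw [conjTranspose_mul, hJ.eq, hD.eq]
    simp only [Matrix.mul_assoc]
  rwa [e] at h3

/-- minimality: `Tr H S_J(H') ≥ Tr H S_J(H)` -/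
theorem minimal (hJ : J.IsHermitian) (hH₂ : H₂.PosSemidef) (h₁ : IsS J H₁ S₁)
    (h₂ : IsS J H₂ S₂) : rtr (H₂ * S₂) ≤ rtr (H₂ * S₁) := by
  have h3 := rtr_mul_nonneg hH₂ (psd_sandwich hJ h₁.pos.posSemidef (h₂.pos.1.sub h₁.pos.1))
  rw [id_one h₁ h₂] at h3
  linarith

/-- the gradient of a concave function is antitone -/
theorem antitone_S (hJ : J.IsHermitian) (hH₁ : H₁.PosSemidef) (hH₂ : H₂.PosSemidef)
    (h₁ : IsS J H₁ S₁) (h₂ : IsS J H₂ S₂) : rtr ((H₂ - H₁) * (S₂ - S₁)) ≤ 0 := by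
  have a1 := minimal hJ hH₂ h₁ h₂
  have a2 := minimal hJ hH₁ h₂ h₁
  rw [Matrix.sub_mul, Matrix.mul_sub, Matrix.mul_sub, rtr_sub, rtr_sub, rtr_sub]
  linarith

theorem rtr_eq_zero {A : Matrix n n ℂ} (hA : A.PosSemidef) (h : rtr A ≤ 0) : A = 0 := by
  refine hA.trace_eq_zero_iff.1 ?_
  have h1 := hA.trace_nonneg
  rw [Complex.le_def] at h1
  have h2 : (trace A).re = 0 := le_antisymm h h1.1
  exact Complex.ext h2 h1.2.symm

/-- uniqueness -/
theorem IsS.unique (hJ : J.IsHermitian) (hH : H.PosDef) (h₁ : IsS J H S₁) (h₂ : IsS J H S₂) :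
    S₁ = S₂ := by
  have a1 := minimal hJ hH.posSemidef h₁ h₂
  have a2 := minimal hJ hH.posSemidef h₂ h₁
  have a3 := id_one h₁ h₂
  obtain ⟨C, hC⟩ := exists_factor h₁.pos.posSemidef
  set D := S₂ - S₁ with hD
  have hDh : D.IsHermitian := h₂.pos.1.sub h₁.pos.1
  obtain ⟨F, hF⟩ := exists_factor hH.posSemidef
  have e1 : rtr (H * (D * (J * S₁ * J) * D)) = rtr ((F * D * J * Cᴴ) * (F * D * J * Cᴴ)ᴴ) := by
    rw [hF, hC]
    simp only [conjTranspose_mul, conjTranspose_conjTranspose, hJ.eq, hDh.eq]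
    rw [show Fᴴ * F * (D * (J * (Cᴴ * C) * J) * D) =
      Fᴴ * (F * D * J * Cᴴ * C * J * D) by simp only [Matrix.mul_assoc], rtr_mul_comm]
    simp only [Matrix.mul_assoc]
  have h0 : F * D * J * Cᴴ = 0 := by
    have h3 : ((F * D * J * Cᴴ) * (F * D * J * Cᴴ)ᴴ).PosSemidef :=
      posSemidef_self_mul_conjTranspose _
    have h4 := rtr_eq_zero h3 (by rw [← e1, a3]; linarith)
    exact Matrix.self_mul_conjTranspose_eq_zero.1 h4
  -- cancel
  have h5 : H * D * (J * S₁ * J) = 0 := by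
    rw [hF, hC]
    calc Fᴴ * F * D * (J * (Cᴴ * C) * J) = Fᴴ * (F * D * J * Cᴴ) * C * J := by
          simp only [Matrix.mul_assoc]
      _ = 0 := by rw [h0]; simp
  have h6 : H * D = 0 := by
    calc H * D = H * D * (J * S₁ * J * S₁) := by rw [h₁.inv, Matrix.mul_one]
      _ = H * D * (J * S₁ * J) * S₁ := by simp only [Matrix.mul_assoc]
      _ = 0 := by rw [h5, Matrix.zero_mul]
  have hHu : IsUnit H.det := (Matrix.isUnit_iff_isUnit_det _).1 hH.isUnit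
  have h7 : D = 0 := by
    have := congrArg (fun X => H⁻¹ * X) h6
    simpa [← Matrix.mul_assoc, Matrix.nonsing_inv_mul _ hHu] using this
  rw [hD] at h7
  exact (sub_eq_zero.1 h7).symm

end

/-- existence from simultaneous diagonalisation -/
theorem isS_of_diag {C C' : Matrix n n ℂ} (hC : C * C' = 1) {l : n → ℝ} (hl : ∀ i, l i ≠ 0) :
    IsS (Cᴴ * dg l * C) (Cᴴ * C) (C' * dg (fun i => |l i|⁻¹) * C'ᴴ) := by
  have hC' : C' * C = 1 := mul_eq_one_comm.1 hC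
  have hCh : C'ᴴ * Cᴴ = 1 := by rw [← conjTranspose_mul, hC, conjTranspose_one]
  have hCh' : Cᴴ * C'ᴴ = 1 := by rw [← conjTranspose_mul, hC', conjTranspose_one]
  have d1 : dg l * dg (fun i => |l i|⁻¹) * dg l * dg (fun i => |l i|⁻¹) =
      (1 : Matrix n n ℂ) := by
    simp only [dg, diagonal_mul_diagonal]
    rw [← diagonal_one]
    congr 1
    funext i
    have h1 : l i ≠ 0 := hl i
    have h2 : |l i| ≠ 0 := abs_ne_zero.2 h1
    have h3 : l i * |l i|⁻¹ * l i * |l i|⁻¹ = 1 := by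
      field_simp
      rw [sq_abs]
    exact_mod_cast h3
  have d2 : dg l * dg (fun i => |l i|⁻¹) * dg (fun i => |l i|⁻¹) * dg l =
      (1 : Matrix n n ℂ) := by
    simp only [dg, diagonal_mul_diagonal]
    rw [← diagonal_one]
    congr 1
    funext i
    have h1 : l i ≠ 0 := hl i
    have h2 : |l i| ≠ 0 := abs_ne_zero.2 h1
    have h3 : l i * |l i|⁻¹ * |l i|⁻¹ * l i = 1 := by
      field_simp
      rw [sq_abs]
    exact_mod_cast h3
  refine ⟨?_, ?_, ?_⟩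
  · have h1 : (dg (fun i => |l i|⁻¹) : Matrix n n ℂ).PosDef := by
      refine PosDef.diagonal fun i => ?_
      have : 0 < |l i|⁻¹ := inv_pos.2 (abs_pos.2 (hl i))
      exact_mod_cast this
    refine h1.mul_mul_conjTranspose_same ?_
    intro x y hxy
    have hxy' : x ᵥ* C' = y ᵥ* C' := hxy
    have := congrArg (fun v => v ᵥ* C) hxy'
    simpa [Matrix.vecMul_vecMul, hC'] using this
  · calc Cᴴ * dg l * C * (C' * dg (fun i => |l i|⁻¹) * C'ᴴ) * (Cᴴ * dg l * C) *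
          (C' * dg (fun i => |l i|⁻¹) * C'ᴴ)
        = Cᴴ * dg l * (C * C') * dg (fun i => |l i|⁻¹) * (C'ᴴ * Cᴴ) * dg l * (C * C') *
          dg (fun i => |l i|⁻¹) * C'ᴴ := by simp only [Matrix.mul_assoc]
      _ = Cᴴ * (dg l * dg (fun i => |l i|⁻¹) * dg l * dg (fun i => |l i|⁻¹)) * C'ᴴ := by
          rw [hC, hCh]
          simp only [Matrix.mul_assoc, Matrix.mul_one, Matrix.one_mul]
      _ = 1 := by rw [d1, Matrix.mul_one, hCh']
  · calc Cᴴ * dg l * C * (C' * dg (fun i => |l i|⁻¹) * C'ᴴ) * (Cᴴ * C) *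
          (C' * dg (fun i => |l i|⁻¹) * C'ᴴ) * (Cᴴ * dg l * C)
        = Cᴴ * dg l * (C * C') * dg (fun i => |l i|⁻¹) * (C'ᴴ * Cᴴ) * (C * C') *
          dg (fun i => |l i|⁻¹) * (C'ᴴ * Cᴴ) * dg l * C := by simp only [Matrix.mul_assoc]
      _ = Cᴴ * (dg l * dg (fun i => |l i|⁻¹) * dg (fun i => |l i|⁻¹) * dg l) * C := by
          rw [hC, hCh]
          simp only [Matrix.mul_assoc, Matrix.mul_one, Matrix.one_mul]
      _ = Cᴴ * C := by rw [d2, Matrix.mul_one]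

section

variable {v w : Type*} [Fintype v] [DecidableEq v] [Fintype w] [DecidableEq w]

/-- the position of `2 H₀ - H₁` in the `c` form -/
theorem shift_identity (R₁ D₁ : Matrix v v ℂ) (R₂ D₂ : Matrix w w ℂ) {c : ℝ} (h1 : -1 < c)
    (h2 : c < 1) :
    (2 : ℝ) • ((R₁ + c • D₁) ⊗ₖ R₂ + (-(c / (1 - c ^ 2))) • ((R₁ + c • D₁) ⊗ₖ (D₂ - c • R₂))) -
      (R₁ ⊗ₖ R₂ + D₁ ⊗ₖ D₂) =
    ((1 + c) / (2 * (1 - c))) • ((R₁ + D₁) ⊗ₖ (R₂ - D₂)) +
      ((1 - c) / (2 * (1 + c))) • ((R₁ - D₁) ⊗ₖ (R₂ + D₂)) := by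
  have e1 : (1 : ℂ) - c ≠ 0 := by
    have : (1 : ℝ) - c ≠ 0 := by linarith
    exact_mod_cast this
  have e2 : (1 : ℂ) + c ≠ 0 := by
    have : (1 : ℝ) + c ≠ 0 := by linarith
    exact_mod_cast this
  have e3 : (1 : ℂ) - (c : ℂ) ^ 2 = (1 - c) * (1 + c) := by ring
  ext ⟨i, i'⟩ ⟨j, j'⟩
  simp only [Matrix.add_apply, Matrix.sub_apply, Matrix.smul_apply, kroneckerMap_apply,
    Complex.real_smul]
  push_cast
  rw [e3]
  field_simp
  ring

/-- `2 H₀' - H₁ ≥ 0` in the `c` form, `H_i = 1 + z M_i` -/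
theorem shift_pos {R₁ D₁ : Matrix v v ℂ} {R₂ D₂ : Matrix w w ℂ} {c z : ℝ} (h1 : -1 < c)
    (h2 : c < 1) (hz : 0 ≤ z) (hp₁ : (R₁ + D₁).PosSemidef) (hn₁ : (R₁ - D₁).PosSemidef)
    (hp₂ : (R₂ + D₂).PosSemidef) (hn₂ : (R₂ - D₂).PosSemidef) :
    ((2 : ℝ) • ((1 + z • ((R₁ + c • D₁) ⊗ₖ R₂)) +
        (-(z * (c / (1 - c ^ 2)))) • ((R₁ + c • D₁) ⊗ₖ (D₂ - c • R₂))) -
      (1 + z • (R₁ ⊗ₖ R₂ + D₁ ⊗ₖ D₂))).PosSemidef := by
  have e : ((2 : ℝ) • ((1 + z • ((R₁ + c • D₁) ⊗ₖ R₂)) +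
        (-(z * (c / (1 - c ^ 2)))) • ((R₁ + c • D₁) ⊗ₖ (D₂ - c • R₂))) -
      (1 + z • (R₁ ⊗ₖ R₂ + D₁ ⊗ₖ D₂))) =
      1 + z • ((2 : ℝ) • ((R₁ + c • D₁) ⊗ₖ R₂ +
        (-(c / (1 - c ^ 2))) • ((R₁ + c • D₁) ⊗ₖ (D₂ - c • R₂))) - (R₁ ⊗ₖ R₂ + D₁ ⊗ₖ D₂)) := by
    module
  rw [e, shift_identity R₁ D₁ R₂ D₂ h1 h2]
  have a1 : (0 : ℝ) ≤ (1 + c) / (2 * (1 - c)) := by
    apply div_nonneg <;> linarith
  have a2 : (0 : ℝ) ≤ (1 - c) / (2 * (1 + c)) := by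
    apply div_nonneg <;> linarith
  exact PosSemidef.one.add ((((hp₁.kronecker hn₂).smul a1).add
    ((hn₁.kronecker hp₂).smul a2)).smul hz)

end

end Pool.Agent.A1
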