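import Pool.Agent.Lib_helper28.A1.Bnd

/-!
# MP_859019, project A1, block BND: frames exist; the bound is uniform on compact sets
-/

set_option autoImplicit false
set_option linter.unusedSectionVars false
set_option linter.unusedVariables false

open scoped ComplexOrder

namespace Pool.Agent.A1

open Matrix
open Pool.Agent.Lib_helper59.Lieb (rtr rtr_add rtr_sub rtr_smul rtr_mul_comm dg
  exists_spectral_pos)

section

variable {n : Type*} [Fintype n] [DecidableEq n]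

theorem exists_spectral_herm {A : Matrix n n ℂ} (hA : A.IsHermitian) :
    ∃ (U : Matrix n n ℂ) (c : n → ℝ), Uᴴ * U = 1 ∧ U * Uᴴ = 1 ∧ A = U * dg c * Uᴴ := by
  refine ⟨hA.eigenvectorUnitary, hA.eigenvalues, ?_, ?_, ?_⟩
  · have := (Matrix.mem_unitaryGroup_iff' (A := (hA.eigenvectorUnitary : Matrix n n ℂ))).1
      hA.eigenvectorUnitary.2
    simpa [star_eq_conjTranspose] using this
  · have := (Matrix.mem_unitaryGroup_iff (A := (hA.eigenvectorUnitary : Matrix n n ℂ))).1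
      hA.eigenvectorUnitary.2
    simpa [star_eq_conjTranspose] using this
  · have := hA.spectral_theorem
    rw [Unitary.conjStarAlgAut_apply] at this
    exact this

/-- frames exist -/
theorem exists_frame_t {H J : Matrix n n ℂ} (hH : H.PosDef) (hJ : J.IsHermitian) :
    ∃ (T : Matrix n n ℂ) (l : n → ℝ), Tᴴ * H * T = 1 ∧ Tᴴ * J * T = dg l := by
  obtain ⟨U, c, hU, hU', hc, hA⟩ := exists_spectral_pos hH
  set R : Matrix n n ℂ := U * dg (fun i => (Real.sqrt (c i))⁻¹) with hR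
  have hdg : (dg (fun i => (Real.sqrt (c i))⁻¹) : Matrix n n ℂ)ᴴ =
      dg (fun i => (Real.sqrt (c i))⁻¹) := by
    simp only [dg, diagonal_conjTranspose]
    congr 1
    funext i
    simp
  have h1 : Rᴴ * H * R = 1 := by
    rw [hR, conjTranspose_mul, hdg, hA]
    calc dg (fun i => (Real.sqrt (c i))⁻¹) * Uᴴ * (U * dg c * Uᴴ) *
          (U * dg (fun i => (Real.sqrt (c i))⁻¹))
        = dg (fun i => (Real.sqrt (c i))⁻¹) * (Uᴴ * U) * dg c * (Uᴴ * U) *
          dg (fun i => (Real.sqrt (c i))⁻¹) := by simp only [Matrix.mul_assoc]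
      _ = dg (fun i => (Real.sqrt (c i))⁻¹) * dg c * dg (fun i => (Real.sqrt (c i))⁻¹) := by
          rw [hU, Matrix.mul_one, Matrix.mul_one]
      _ = 1 := by
          simp only [dg, diagonal_mul_diagonal]
          rw [← diagonal_one]
          congr 1
          funext i
          have h3 : (Real.sqrt (c i))⁻¹ * c i * (Real.sqrt (c i))⁻¹ = 1 := by
            have h4 : Real.sqrt (c i) ≠ 0 := (Real.sqrt_pos.2 (hc i)).ne'
            have h5 : Real.sqrt (c i) * Real.sqrt (c i) = c i := Real.mul_self_sqrt (hc i).le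
            field_simp
            linarith
          exact_mod_cast h3
  have hL : (Rᴴ * J * R).IsHermitian := by
    clear_value R
    rw [IsHermitian, conjTranspose_mul, conjTranspose_mul, conjTranspose_conjTranspose, hJ.eq,
      Matrix.mul_assoc]
  obtain ⟨V, l, hV, hV', hl⟩ := exists_spectral_herm hL
  refine ⟨R * V, l, ?_, ?_⟩
  · rw [conjTranspose_mul]
    calc Vᴴ * Rᴴ * H * (R * V) = Vᴴ * (Rᴴ * H * R) * V := by simp only [Matrix.mul_assoc]
      _ = 1 := by rw [h1, Matrix.mul_one, hV]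
  · rw [conjTranspose_mul]
    calc Vᴴ * Rᴴ * J * (R * V) = Vᴴ * (Rᴴ * J * R) * V := by simp only [Matrix.mul_assoc]
      _ = (Vᴴ * V) * dg l * (Vᴴ * V) := by rw [hl]; simp only [Matrix.mul_assoc]
      _ = dg l := by rw [hV, Matrix.mul_one, Matrix.one_mul]

theorem frame_mul_conj {H T : Matrix n n ℂ} (h : Tᴴ * H * T = 1) : T * Tᴴ = H⁻¹ := by
  have h1 : T * Tᴴ * H = 1 := by
    have := mul_eq_one_comm.1 h
    rw [← Matrix.mul_assoc] at this
    exact this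
  exact (Matrix.inv_eq_left_inv h1).symm

/-- **block BND**, with inverses -/
theorem bnd_inv {η : ℝ} (hη : 0 ≤ η) {H₀ H₁ J Y K T₀ T₁ : Matrix n n ℂ} {l₀ l₁ : n → ℝ}
    (hH₁ : H₁.IsHermitian) (a₀ : T₀ᴴ * H₀ * T₀ = 1) (a₁ : T₁ᴴ * H₁ * T₁ = 1)
    (j₀ : T₀ᴴ * J * T₀ = dg l₀) (j₁ : T₁ᴴ * J * T₁ = dg l₁) (hd : H₁ - H₀ = Y * J) :
    |rtr (K * (T₁ * dg (fun i => η / (1 + η * |l₁ i|)) * T₁ᴴ -
      T₀ * dg (fun i => η / (1 + η * |l₀ i|)) * T₀ᴴ))| ≤
    2 * (Real.sqrt (rtr (K * H₀⁻¹ * Kᴴ * H₁⁻¹)) * Real.sqrt (rtr (Y * H₁ * Yᴴ * H₀⁻¹))) := by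
  have h := bnd_frames (K := K) hη hH₁ a₀ a₁ j₀ j₁ hd
  rwa [frame_mul_conj a₀, frame_mul_conj a₁] at h

theorem continuous_rtr : Continuous (rtr : Matrix n n ℂ → ℝ) := by
  unfold rtr
  fun_prop

theorem continuousOn_inv' {α : Type*} [TopologicalSpace α] {s : Set α} {H : α → Matrix n n ℂ}
    (c : ContinuousOn H s) (p : ∀ x ∈ s, (H x).PosDef) : ContinuousOn (fun x => (H x)⁻¹) s := by
  have hd : ∀ x ∈ s, (H x).det ≠ 0 := fun x hx => ((p x hx).isUnit.map detMonoidHom).ne_zero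
  have h1 : ContinuousOn (fun x => (H x).det) s := by
    have := (continuous_id.matrix_det : Continuous fun A : Matrix n n ℂ => A.det)
    exact this.comp_continuousOn c
  have h2 : ContinuousOn (fun x => (H x).adjugate) s := by
    have := (continuous_id.matrix_adjugate : Continuous fun A : Matrix n n ℂ => A.adjugate)
    exact this.comp_continuousOn c
  have h3 : ContinuousOn (fun x => ((H x).det)⁻¹ • (H x).adjugate) s := (h1.inv₀ hd).smul h2
  refine h3.congr fun x hx => ?_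
  simp only
  rw [Matrix.inv_def, Ring.inverse_eq_inv']

/-- **block BND**: the bound is uniform in `η ≥ 0` and on compact parameter sets -/
theorem bnd_compact {α : Type*} [TopologicalSpace α] {s : Set α} (hs : IsCompact s)
    {H₀ H₁ J Y K : α → Matrix n n ℂ} (c₀ : ContinuousOn H₀ s) (c₁ : ContinuousOn H₁ s)
    (cY : ContinuousOn Y s) (cK : ContinuousOn K s) (p₀ : ∀ x ∈ s, (H₀ x).PosDef)
    (p₁ : ∀ x ∈ s, (H₁ x).PosDef) (hd : ∀ x ∈ s, H₁ x - H₀ x = Y x * J x) :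
    ∃ C : ℝ, 0 ≤ C ∧ ∀ x ∈ s, ∀ η : ℝ, 0 ≤ η → ∀ (T₀ T₁ : Matrix n n ℂ) (l₀ l₁ : n → ℝ),
      T₀ᴴ * H₀ x * T₀ = 1 → T₁ᴴ * H₁ x * T₁ = 1 → T₀ᴴ * J x * T₀ = dg l₀ →
      T₁ᴴ * J x * T₁ = dg l₁ →
      |rtr (K x * (T₁ * dg (fun i => η / (1 + η * |l₁ i|)) * T₁ᴴ -
        T₀ * dg (fun i => η / (1 + η * |l₀ i|)) * T₀ᴴ))| ≤ C := by
  have i₀ := continuousOn_inv' c₀ p₀
  have i₁ := continuousOn_inv' c₁ p₁
  have cst : Continuous fun A : Matrix n n ℂ => Aᴴ := continuous_id.matrix_conjTranspose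
  have cK' : ContinuousOn (fun x => (K x)ᴴ) s := cst.comp_continuousOn cK
  have cY' : ContinuousOn (fun x => (Y x)ᴴ) s := cst.comp_continuousOn cY
  have f1 : ContinuousOn (fun x => rtr (K x * (H₀ x)⁻¹ * (K x)ᴴ * (H₁ x)⁻¹)) s :=
    continuous_rtr.comp_continuousOn (((cK.mul i₀).mul cK').mul i₁)
  have f2 : ContinuousOn (fun x => rtr (Y x * H₁ x * (Y x)ᴴ * (H₀ x)⁻¹)) s :=
    continuous_rtr.comp_continuousOn (((cY.mul c₁).mul cY').mul i₀)
  have f3 : ContinuousOn (fun x => 2 * (Real.sqrt (rtr (K x * (H₀ x)⁻¹ * (K x)ᴴ * (H₁ x)⁻¹)) *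
      Real.sqrt (rtr (Y x * H₁ x * (Y x)ᴴ * (H₀ x)⁻¹)))) s :=
    continuousOn_const.mul (f1.sqrt.mul f2.sqrt)
  obtain ⟨C, hC⟩ := hs.exists_bound_of_continuousOn f3
  refine ⟨max C 0, le_max_right _ _, ?_⟩
  intro x hx η hη T₀ T₁ l₀ l₁ a₀ a₁ j₀ j₁
  refine (bnd_inv hη (p₁ x hx).1 a₀ a₁ j₀ j₁ (hd x hx)).trans ?_
  exact (le_abs_self _).trans ((hC x hx).trans (le_max_left _ _))

end

end Pool.Agent.A1
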