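import Pool.Agent.Lib_helper28.A1.T3b
import Pool.Agent.Lib_helper28.A1.BndC

/-!
# MP_859019, project A1, block SGN: the sign of `2Q - (α-1)B`
-/

set_option autoImplicit false
set_option linter.unusedSectionVars false
set_option linter.unusedVariables false

open scoped ComplexOrder Kronecker

namespace Pool.Agent.A1

open Matrix Set
open Pool.Agent.Lib_helper59.Lieb (rtr rtr_add rtr_sub rtr_smul rtr_mul_comm dg)

/-- an antitone supergradient integrates to the difference -/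
theorem integral_supergradient {Ψ g : ℝ → ℝ}
    (h : ∀ s ∈ Icc (0 : ℝ) 1, ∀ t ∈ Icc (0 : ℝ) 1, Ψ t ≤ Ψ s + (t - s) * g s) :
    AntitoneOn g (Icc 0 1) ∧ ∫ t in (0 : ℝ)..1, g t = Ψ 1 - Ψ 0 := by
  have hg : AntitoneOn g (Icc 0 1) := by
    intro s hs t ht hst
    rcases hst.eq_or_lt with rfl | hlt
    · exact le_rfl
    · have a1 := h s hs t ht
      have a2 := h t ht s hs
      have a3 : (t - s) * g t ≤ (t - s) * g s := by nlinarith
      exact le_of_mul_le_mul_left a3 (sub_pos.2 hlt)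
  refine ⟨hg, ?_⟩
  have hsub : ∀ a b : ℝ, 0 ≤ a → a ≤ b → b ≤ 1 → AntitoneOn g (uIcc a b) := by
    intro a b ha hab hb
    rw [uIcc_of_le hab]
    exact hg.mono (Icc_subset_Icc ha hb)
  have hint : ∀ a b : ℝ, 0 ≤ a → a ≤ b → b ≤ 1 →
      IntervalIntegrable g MeasureTheory.volume a b := fun a b ha hab hb =>
    (hsub a b ha hab hb).intervalIntegrable
  have hloc : ∀ a b : ℝ, 0 ≤ a → a ≤ b → b ≤ 1 →
      |(∫ t in a..b, g t) - (Ψ b - Ψ a)| ≤ (b - a) * (g a - g b) := by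
    intro a b ha hab hb
    have ha' : a ∈ Icc (0 : ℝ) 1 := ⟨ha, hab.trans hb⟩
    have hb' : b ∈ Icc (0 : ℝ) 1 := ⟨ha.trans hab, hb⟩
    have u1 := h a ha' b hb'
    have u2 := h b hb' a ha'
    have i1 : ∫ t in a..b, g t ≤ ∫ t in a..b, g a := by
      refine intervalIntegral.integral_mono_on hab (hint a b ha hab hb) (by simp) ?_
      intro x hx
      exact hg ha' ⟨ha.trans hx.1, hx.2.trans hb⟩ hx.1
    have i2 : ∫ t in a..b, g b ≤ ∫ t in a..b, g t := by
      refine intervalIntegral.integral_mono_on hab (by simp) (hint a b ha hab hb) ?_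
      intro x hx
      exact hg ⟨ha.trans hx.1, hx.2.trans hb⟩ hb' hx.2
    rw [intervalIntegral.integral_const, smul_eq_mul] at i1 i2
    rw [abs_le]
    constructor <;> nlinarith
  have key : ∀ N : ℕ, |(∫ t in (0 : ℝ)..1, g t) - (Ψ 1 - Ψ 0)| ≤
      (g 0 - g 1) / ((N : ℝ) + 1) := by
    intro N
    set a : ℕ → ℝ := fun k => (k : ℝ) / ((N : ℝ) + 1) with ha
    have hN : (0 : ℝ) < (N : ℝ) + 1 := by positivity
    have a0 : a 0 = 0 := by simp [ha]
    have a1 : a (N + 1) = 1 := by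
      simp only [ha]
      push_cast
      exact div_self hN.ne'
    have hmono : ∀ k, a k ≤ a (k + 1) := by
      intro k
      simp only [ha]
      push_cast
      gcongr
      linarith
    have hlen : ∀ k, a (k + 1) - a k = 1 / ((N : ℝ) + 1) := by
      intro k
      simp only [ha]
      push_cast
      field_simp
      ring
    have hnn : ∀ k, 0 ≤ a k := by
      intro k
      simp only [ha]
      positivity
    have hle1 : ∀ k, k ≤ N + 1 → a k ≤ 1 := by
      intro k hk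
      simp only [ha]
      rw [div_le_one hN]
      exact_mod_cast hk
    have e1 : ∫ t in (0 : ℝ)..1, g t = ∑ k ∈ Finset.range (N + 1), ∫ t in a k..a (k + 1), g t := by
      rw [intervalIntegral.sum_integral_adjacent_intervals, a0, a1]
      intro k hk
      exact hint _ _ (hnn k) (hmono k) (hle1 _ (by omega))
    have e2 : Ψ 1 - Ψ 0 = ∑ k ∈ Finset.range (N + 1), (Ψ (a (k + 1)) - Ψ (a k)) := by
      rw [Finset.sum_range_sub (fun k => Ψ (a k)), a0, a1]
    have e3 : g 0 - g 1 = ∑ k ∈ Finset.range (N + 1), (g (a k) - g (a (k + 1))) := by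
      rw [Finset.sum_range_sub' (fun k => g (a k)), a0, a1]
    rw [e1, e2, ← Finset.sum_sub_distrib, e3, Finset.sum_div]
    refine (Finset.abs_sum_le_sum_abs _ _).trans (Finset.sum_le_sum fun k hk => ?_)
    rw [Finset.mem_range] at hk
    refine (hloc _ _ (hnn k) (hmono k) (hle1 _ (by omega))).trans ?_
    rw [hlen]
    apply le_of_eq
    ring
  have h0 : |(∫ t in (0 : ℝ)..1, g t) - (Ψ 1 - Ψ 0)| ≤ 0 := by
    have h5 : Filter.Tendsto (fun N : ℕ => (g 0 - g 1) / ((N : ℝ) + 1)) Filter.atTop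
        (nhds 0) := by
      have := (tendsto_one_div_add_atTop_nhds_zero_nat (𝕜 := ℝ)).const_mul (g 0 - g 1)
      rw [mul_zero] at this
      refine this.congr fun N => ?_
      ring
    exact ge_of_tendsto' h5 key
  have h1 := abs_nonpos_iff.1 h0
  linarith

section

variable {n : Type*} [Fintype n] [DecidableEq n]

/-- existence of `S_J(N)` -/
theorem exists_isS {N J : Matrix n n ℂ} (hN : N.PosDef) (hJ : J.IsHermitian)
    (hdet : J.det ≠ 0) : ∃ S, IsS J N S := by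
  obtain ⟨T, l, h1, h2⟩ := exists_frame_t hN hJ
  have h3 : T * (Tᴴ * N) = 1 := mul_eq_one_comm.1 h1
  have h4 : (Tᴴ * N) * T = 1 := h1
  have h5 : N * T * Tᴴ = 1 := by
    have := mul_eq_one_comm.1 (show Tᴴ * (N * T) = 1 by rw [← Matrix.mul_assoc]; exact h1)
    exact this
  have hc : (Tᴴ * N)ᴴ = N * T := by
    rw [conjTranspose_mul, conjTranspose_conjTranspose, hN.1.eq]
  have eN : (Tᴴ * N)ᴴ * (Tᴴ * N) = N := by
    rw [hc]
    calc N * T * (Tᴴ * N) = N * T * Tᴴ * N := by simp only [Matrix.mul_assoc]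
      _ = N := by rw [h5, Matrix.one_mul]
  have eJ : (Tᴴ * N)ᴴ * dg l * (Tᴴ * N) = J := by
    rw [hc, ← h2]
    calc N * T * (Tᴴ * J * T) * (Tᴴ * N) = N * T * Tᴴ * J * (T * (Tᴴ * N)) := by
          simp only [Matrix.mul_assoc]
      _ = J := by rw [h5, h3, Matrix.one_mul, Matrix.mul_one]
  have hl : ∀ i, l i ≠ 0 := by
    have h6 : (dg l : Matrix n n ℂ).det ≠ 0 := by
      rw [← h2, det_mul, det_mul]
      have h7 : Tᴴ.det * (N.det * T.det) = 1 := by
        rw [← det_mul, ← det_mul, ← Matrix.mul_assoc, h1, det_one]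
      have h8 : Tᴴ.det ≠ 0 := left_ne_zero_of_mul_eq_one h7
      have h9 : T.det ≠ 0 := by
        intro h
        rw [h, mul_zero, mul_zero] at h7
        exact zero_ne_one h7
      exact mul_ne_zero (mul_ne_zero h8 hdet) h9
    rw [dg, det_diagonal, Finset.prod_ne_zero_iff] at h6
    intro i
    have := h6 i (Finset.mem_univ _)
    exact_mod_cast this
  refine ⟨T * dg (fun i => |l i|⁻¹) * Tᴴ, ?_⟩
  have := isS_of_diag (C := Tᴴ * N) (C' := T) h4 hl
  rwa [eN, eJ] at this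

variable {J N₀ Dl : Matrix n n ℂ} {S : ℝ → Matrix n n ℂ} {e : ℝ}

/-- the supergradient inequality along the path -/
theorem path_super (hJ : J.IsHermitian)
    (hN : ∀ t ∈ Icc (0 : ℝ) 1, (N₀ + (t * e) • Dl).PosSemidef)
    (hS : ∀ t ∈ Icc (0 : ℝ) 1, IsS J (N₀ + (t * e) • Dl) (S t)) :
    ∀ s ∈ Icc (0 : ℝ) 1, ∀ t ∈ Icc (0 : ℝ) 1,
      rtr ((N₀ + (t * e) • Dl) * S t) ≤
        rtr ((N₀ + (s * e) • Dl) * S s) + (t - s) * (e * rtr (Dl * S s)) := by
  intro s hs t ht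
  have h1 := minimal hJ (hN t ht) (hS s hs) (hS t ht)
  refine h1.trans (le_of_eq ?_)
  have e1 : (N₀ + (t * e) • Dl) * S s = (N₀ + (s * e) • Dl) * S s + ((t - s) * e) • (Dl * S s) := by
    rw [Matrix.add_mul, Matrix.add_mul, Matrix.smul_mul, Matrix.smul_mul]
    module
  rw [e1, rtr_add, rtr_smul]
  ring

/-- `p` is antitone and `e ∫₀¹ p = Ψ(1) - Ψ(0)` -/
theorem path_int (he : 0 < e) (hJ : J.IsHermitian)
    (hN : ∀ t ∈ Icc (0 : ℝ) 1, (N₀ + (t * e) • Dl).PosSemidef)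
    (hS : ∀ t ∈ Icc (0 : ℝ) 1, IsS J (N₀ + (t * e) • Dl) (S t)) :
    AntitoneOn (fun t => rtr (Dl * S t)) (Icc 0 1) ∧
      e * ∫ t in (0 : ℝ)..1, rtr (Dl * S t) =
        rtr ((N₀ + e • Dl) * S 1) - rtr (N₀ * S 0) := by
  obtain ⟨h1, h2⟩ := integral_supergradient (path_super hJ hN hS)
  constructor
  · intro s hs t ht hst
    have := h1 hs ht hst
    exact le_of_mul_le_mul_left this he
  · rw [intervalIntegral.integral_const_mul] at h2
    rw [h2]
    simp

/-- the basic signs -/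
theorem path_signs (he : 0 < e) (hJ : J.IsHermitian)
    (hN : ∀ t ∈ Icc (0 : ℝ) 1, (N₀ + (t * e) • Dl).PosSemidef)
    (hS : ∀ t ∈ Icc (0 : ℝ) 1, IsS J (N₀ + (t * e) • Dl) (S t)) :
    rtr (Dl * S 1) ≤ ∫ t in (0 : ℝ)..1, rtr (Dl * S t) ∧
      ∫ t in (0 : ℝ)..1, rtr (Dl * S t) ≤ rtr (Dl * S 0) := by
  obtain ⟨h1, -⟩ := path_int he hJ hN hS
  have hint : IntervalIntegrable (fun t => rtr (Dl * S t)) MeasureTheory.volume 0 1 := by
    refine AntitoneOn.intervalIntegrable ?_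
    rw [uIcc_of_le zero_le_one]
    exact h1
  constructor
  · have := intervalIntegral.integral_mono_on (f := fun _ => rtr (Dl * S 1)) zero_le_one (by simp)
      hint (fun x hx => h1 hx ⟨zero_le_one, le_rfl⟩ hx.2)
    simpa using this
  · have := intervalIntegral.integral_mono_on (g := fun _ => rtr (Dl * S 0)) zero_le_one hint
      (by simp) (fun x hx => h1 ⟨le_rfl, zero_le_one⟩ hx hx.1)
    simpa using this

/-- **block SGN**, generic form -/
theorem path_sgn (he : 0 < e) (hJ : J.IsHermitian)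
    (hN : ∀ t ∈ Icc (0 : ℝ) 1, (N₀ + (t * e) • Dl).PosSemidef)
    (hS : ∀ t ∈ Icc (0 : ℝ) 1, IsS J (N₀ + (t * e) • Dl) (S t)) (s : ℝ)
    (hpos : ((2 : ℝ) • (N₀ + s • J) - (N₀ + e • Dl)).PosSemidef) {α : ℝ} (hα : α ≤ 2) :
    (α - 1) * (rtr (Dl * S 0) - ∫ t in (0 : ℝ)..1, rtr (Dl * S t)) ≤
      2 * ((∫ t in (0 : ℝ)..1, rtr (Dl * S t)) - rtr (Dl * S 1)) := by
  obtain ⟨h1, h2⟩ := path_int he hJ hN hS
  obtain ⟨b1, b2⟩ := path_signs he hJ hN hS
  set P := ∫ t in (0 : ℝ)..1, rtr (Dl * S t) with hP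
  have m0 : (0 : ℝ) ∈ Icc (0 : ℝ) 1 := ⟨le_rfl, zero_le_one⟩
  have m1 : (1 : ℝ) ∈ Icc (0 : ℝ) 1 := ⟨zero_le_one, le_rfl⟩
  have s0 : IsS J N₀ (S 0) := by
    have := hS 0 m0
    rwa [zero_mul, zero_smul, add_zero] at this
  have s1 : IsS J (N₀ + e • Dl) (S 1) := by
    have := hS 1 m1
    rwa [one_mul] at this
  have n1 : (N₀ + e • Dl).PosSemidef := by
    have := hN 1 m1
    rwa [one_mul] at this
  have h3 := t3_two hJ s n1 s0 s1 hpos
  have e1 : ((2 : ℝ) • N₀ + (N₀ + e • Dl)) * (S 1 - S 0) =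
      (2 : ℝ) • ((N₀ + e • Dl) * S 1) - (2 : ℝ) • (N₀ * S 0) - (2 * e) • (Dl * S 1) -
      (e • (Dl * S 0) - ((N₀ + e • Dl) * S 1 - N₀ * S 0)) := by
    simp only [Matrix.add_mul, Matrix.mul_sub, Matrix.smul_mul]
    module
  have h4 : 0 ≤ e * (2 * (P - rtr (Dl * S 1)) - (rtr (Dl * S 0) - P)) := by
    have h5 : 0 ≤ rtr (((2 : ℝ) • N₀ + (N₀ + e • Dl)) * (S 1 - S 0)) := h3
    rw [e1] at h5
    simp only [rtr_sub, rtr_smul] at h5
    nlinarith [h2, h5]
  have h6 : 0 ≤ 2 * (P - rtr (Dl * S 1)) - (rtr (Dl * S 0) - P) := nonneg_of_mul_nonneg_right h4 he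
  nlinarith

end

end Pool.Agent.A1
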