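import Pool.Agent.Lib_helper59.Lieb.Basic

/-!
# MP_859019, project A1, block BND: the uniform bound

Frames `T_i` with `T_iᴴ H_i T_i = 1`, `T_iᴴ J T_i = dg l_i`, `H₁ - H₀ = Y J`,
`S_i = T_i dg (f_η l_i) T_iᴴ`, `f_η t = η/(1+η|t|)`:
`|Tr K (S₁ - S₀)| ≤ 2 √(Tr K H₀⁻¹ Kᴴ H₁⁻¹) √(Tr Y H₁ Yᴴ H₀⁻¹)` for every `η ≥ 0`.
-/

set_option autoImplicit false
set_option linter.unusedSectionVars false
set_option linter.unusedVariables false

open scoped ComplexOrder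

namespace Pool.Agent.A1

open Matrix
open Pool.Agent.Lib_helper59.Lieb (rtr rtr_add rtr_sub rtr_smul rtr_mul_comm dg)

/-- scalar inequality -/
theorem scal_bnd {η : ℝ} (hη : 0 ≤ η) (x y : ℝ) :
    |y| * |y * (η / (1 + η * |y|)) - x * (η / (1 + η * |x|))| ≤ 2 * |x - y| := by
  have hx : 0 ≤ η * |x| := mul_nonneg hη (abs_nonneg x)
  have hy : 0 ≤ η * |y| := mul_nonneg hη (abs_nonneg y)
  have px : 0 < 1 + η * |x| := by linarith
  have py : 0 < 1 + η * |y| := by linarith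
  have e : y * (η / (1 + η * |y|)) - x * (η / (1 + η * |x|)) =
      η * ((y - x) + η * ((y - x) * |x| + x * (|x| - |y|))) / ((1 + η * |x|) * (1 + η * |y|)) := by
    field_simp
    ring
  have b1 : |(y - x) + η * ((y - x) * |x| + x * (|x| - |y|))| ≤ |x - y| * (1 + 2 * (η * |x|)) := by
    have c1 : |(y - x) * |x| + x * (|x| - |y|)| ≤ 2 * (|x - y| * |x|) := by
      refine (abs_add_le _ _).trans ?_
      rw [abs_mul, abs_mul, abs_abs, abs_sub_comm y x]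
      have := abs_abs_sub_abs_le_abs_sub x y
      nlinarith [abs_nonneg x]
    refine (abs_add_le _ _).trans ?_
    rw [abs_mul, abs_of_nonneg hη, abs_sub_comm y x]
    nlinarith [mul_le_mul_of_nonneg_left c1 hη]
  rw [e, abs_div, abs_mul, abs_of_nonneg hη, abs_of_pos (mul_pos px py), ← mul_div_assoc,
    div_le_iff₀ (mul_pos px py)]
  have d1 : |y| * (η * |(y - x) + η * ((y - x) * |x| + x * (|x| - |y|))|) ≤
      (η * |y|) * (|x - y| * (1 + 2 * (η * |x|))) := by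
    nlinarith [mul_le_mul_of_nonneg_left b1 hy]
  refine d1.trans ?_
  have hxy : 0 ≤ |x - y| := abs_nonneg _
  have : (η * |y|) * (1 + 2 * (η * |x|)) ≤ 2 * ((1 + η * |x|) * (1 + η * |y|)) := by
    nlinarith [mul_nonneg hx hy]
  nlinarith [mul_le_mul_of_nonneg_left this hxy]

/-- the entry bound -/
theorem entry_bnd {η : ℝ} (hη : 0 ≤ η) (x y : ℝ) (u v : ℂ)
    (h : (x : ℂ) * u = (u + v * y) * y) :
    ‖u * ((η / (1 + η * |y|) : ℝ) : ℂ) - ((η / (1 + η * |x|) : ℝ) : ℂ) * (u + v * y)‖ ≤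
      2 * ‖v‖ := by
  have h1 : u * ((x - y : ℝ) : ℂ) = v * y * y := by
    push_cast
    linear_combination h
  by_cases hxy : x = y
  · subst hxy
    have h2 : v * (x : ℂ) = 0 := by
      simp only [sub_self, Complex.ofReal_zero, mul_zero] at h1
      rcases mul_eq_zero.1 h1.symm with h3 | h3
      · exact h3
      · rw [h3, mul_zero]
    rw [h2, add_zero, mul_comm, sub_self, norm_zero]
    positivity
  · have hne : x - y ≠ 0 := sub_ne_zero.2 hxy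
    have hne' : ((x - y : ℝ) : ℂ) ≠ 0 := by exact_mod_cast hne
    have e : (u * ((η / (1 + η * |y|) : ℝ) : ℂ) -
        ((η / (1 + η * |x|) : ℝ) : ℂ) * (u + v * y)) * ((x - y : ℝ) : ℂ) =
        v * ((y * (y * (η / (1 + η * |y|)) - x * (η / (1 + η * |x|))) : ℝ) : ℂ) := by
      have e1 : (u * ((η / (1 + η * |y|) : ℝ) : ℂ) -
          ((η / (1 + η * |x|) : ℝ) : ℂ) * (u + v * y)) * ((x - y : ℝ) : ℂ) =
          (u * ((x - y : ℝ) : ℂ)) * (((η / (1 + η * |y|) : ℝ) : ℂ) -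
            ((η / (1 + η * |x|) : ℝ) : ℂ)) -
          ((η / (1 + η * |x|) : ℝ) : ℂ) * (v * y) * ((x - y : ℝ) : ℂ) := by ring
      rw [e1, h1]
      push_cast
      ring
    have h2 : ‖(u * ((η / (1 + η * |y|) : ℝ) : ℂ) -
        ((η / (1 + η * |x|) : ℝ) : ℂ) * (u + v * y))‖ * |x - y| =
        ‖v‖ * (|y| * |y * (η / (1 + η * |y|)) - x * (η / (1 + η * |x|))|) := by
      have := congrArg (fun z => ‖z‖) e
      simp only [norm_mul, Complex.norm_real, Real.norm_eq_abs] at this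
      rw [this, ← abs_mul]
    have h3 := mul_le_mul_of_nonneg_left (scal_bnd hη x y) (norm_nonneg v)
    have hpos : 0 < |x - y| := abs_pos.2 hne
    nlinarith [h2, h3, hpos]

section

variable {n : Type*} [Fintype n] [DecidableEq n]

theorem rtr_mul_self_conj (A : Matrix n n ℂ) :
    rtr (A * Aᴴ) = ∑ p : n × n, ‖A p.1 p.2‖ ^ 2 := by
  rw [rtr, trace, Fintype.sum_prod_type]
  simp only [diag_apply, mul_apply, conjTranspose_apply, Complex.re_sum]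
  refine Finset.sum_congr rfl fun i _ => Finset.sum_congr rfl fun j _ => ?_
  rw [Complex.star_def, Complex.mul_conj, Complex.ofReal_re, Complex.normSq_eq_norm_sq]

/-- Cauchy-Schwarz with an entrywise bound -/
theorem rtr_mul_le {A E V : Matrix n n ℂ} (h : ∀ i j, ‖E i j‖ ≤ 2 * ‖V i j‖) :
    |rtr (A * E)| ≤ 2 * (Real.sqrt (rtr (A * Aᴴ)) * Real.sqrt (rtr (V * Vᴴ))) := by
  have h1 : |rtr (A * E)| ≤ ∑ p : n × n, ‖A p.2 p.1‖ * (2 * ‖V p.1 p.2‖) := by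
    have e : rtr (A * E) = ∑ p : n × n, (A p.2 p.1 * E p.1 p.2).re := by
      rw [rtr, trace, Fintype.sum_prod_type_right]
      simp only [diag_apply, mul_apply, Complex.re_sum]
    rw [e]
    refine (Finset.abs_sum_le_sum_abs _ _).trans (Finset.sum_le_sum fun p _ => ?_)
    refine (Complex.abs_re_le_norm _).trans ?_
    rw [norm_mul]
    exact mul_le_mul_of_nonneg_left (h _ _) (norm_nonneg _)
  have h2 : ∑ p : n × n, ‖A p.2 p.1‖ * (2 * ‖V p.1 p.2‖) =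
      2 * ∑ p : n × n, ‖A p.2 p.1‖ * ‖V p.1 p.2‖ := by
    rw [Finset.mul_sum]
    exact Finset.sum_congr rfl fun p _ => by ring
  have h3 := Real.sum_mul_le_sqrt_mul_sqrt (Finset.univ : Finset (n × n))
    (fun p => ‖A p.2 p.1‖) (fun p => ‖V p.1 p.2‖)
  have h4 : ∑ p : n × n, ‖A p.2 p.1‖ ^ 2 = rtr (A * Aᴴ) := by
    rw [rtr_mul_self_conj, Fintype.sum_prod_type_right, Fintype.sum_prod_type]
  rw [h4, ← rtr_mul_self_conj V] at h3
  rw [h2] at h1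
  linarith

/-- **block BND** in frames -/
theorem bnd_frames {η : ℝ} (hη : 0 ≤ η) {H₀ H₁ J Y K T₀ T₁ : Matrix n n ℂ} {l₀ l₁ : n → ℝ}
    (hH₁ : H₁.IsHermitian) (a₀ : T₀ᴴ * H₀ * T₀ = 1) (a₁ : T₁ᴴ * H₁ * T₁ = 1)
    (j₀ : T₀ᴴ * J * T₀ = dg l₀) (j₁ : T₁ᴴ * J * T₁ = dg l₁) (hd : H₁ - H₀ = Y * J) :
    |rtr (K * (T₁ * dg (fun i => η / (1 + η * |l₁ i|)) * T₁ᴴ -
      T₀ * dg (fun i => η / (1 + η * |l₀ i|)) * T₀ᴴ))| ≤
    2 * (Real.sqrt (rtr (K * (T₀ * T₀ᴴ) * Kᴴ * (T₁ * T₁ᴴ))) *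
      Real.sqrt (rtr (Y * H₁ * Yᴴ * (T₀ * T₀ᴴ)))) := by
  have i₀ : T₀ * (T₀ᴴ * H₀) = 1 := mul_eq_one_comm.1 a₀
  have i₁ : T₁ * (T₁ᴴ * H₁) = 1 := mul_eq_one_comm.1 a₁
  have i₁' : H₁ * T₁ * T₁ᴴ = 1 := by
    have := mul_eq_one_comm.1 (show T₁ᴴ * (H₁ * T₁) = 1 by rw [← Matrix.mul_assoc]; exact a₁)
    exact this
  set U := T₀ᴴ * H₀ * T₁ with hU
  set V := T₀ᴴ * Y * H₁ * T₁ with hV
  have hTU : T₀ * U = T₁ := by
    rw [hU]
    calc T₀ * (T₀ᴴ * H₀ * T₁) = T₀ * (T₀ᴴ * H₀) * T₁ := by simp only [Matrix.mul_assoc]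
      _ = T₁ := by rw [i₀, Matrix.one_mul]
  have hJT : J * T₁ = H₁ * T₁ * dg l₁ := by
    calc J * T₁ = H₁ * T₁ * T₁ᴴ * (J * T₁) := by rw [i₁', Matrix.one_mul]
      _ = H₁ * T₁ * (T₁ᴴ * J * T₁) := by simp only [Matrix.mul_assoc]
      _ = H₁ * T₁ * dg l₁ := by rw [j₁]
  have hdV : T₀ᴴ * (H₁ - H₀) * T₁ = V * dg l₁ := by
    rw [hd, hV]
    calc T₀ᴴ * (Y * J) * T₁ = T₀ᴴ * Y * (J * T₁) := by simp only [Matrix.mul_assoc]
      _ = T₀ᴴ * Y * H₁ * T₁ * dg l₁ := by rw [hJT]; simp only [Matrix.mul_assoc]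
  have hU' : T₀ᴴ * H₁ * T₁ = U + V * dg l₁ := by
    rw [← hdV, hU, Matrix.mul_sub, Matrix.sub_mul]
    abel
  have hrel : dg l₀ * U = (U + V * dg l₁) * dg l₁ := by
    calc dg l₀ * U = T₀ᴴ * J * (T₀ * U) := by rw [← j₀]; simp only [Matrix.mul_assoc]
      _ = T₀ᴴ * (J * T₁) := by rw [hTU, Matrix.mul_assoc]
      _ = T₀ᴴ * H₁ * T₁ * dg l₁ := by rw [hJT]; simp only [Matrix.mul_assoc]
      _ = (U + V * dg l₁) * dg l₁ := by rw [hU']
  set E := U * dg (fun i => η / (1 + η * |l₁ i|)) -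
    dg (fun i => η / (1 + η * |l₀ i|)) * (U + V * dg l₁) with hE
  have hS : T₁ * dg (fun i => η / (1 + η * |l₁ i|)) * T₁ᴴ -
      T₀ * dg (fun i => η / (1 + η * |l₀ i|)) * T₀ᴴ = T₀ * E * T₁ᴴ := by
    rw [hE, Matrix.mul_sub, Matrix.sub_mul]
    congr 1
    · rw [← Matrix.mul_assoc, hTU]
    · rw [← hU']
      calc T₀ * dg (fun i => η / (1 + η * |l₀ i|)) * T₀ᴴ =
          T₀ * dg (fun i => η / (1 + η * |l₀ i|)) * T₀ᴴ * (H₁ * T₁ * T₁ᴴ) := by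
            rw [i₁', Matrix.mul_one]
        _ = _ := by simp only [Matrix.mul_assoc]
  have hent : ∀ i j, ‖E i j‖ ≤ 2 * ‖V i j‖ := by
    intro i j
    have h1 := congrFun (congrFun hrel i) j
    simp only [dg, diagonal_mul, mul_diagonal, Matrix.add_apply] at h1
    have h2 := entry_bnd hη (l₀ i) (l₁ j) (U i j) (V i j) h1
    have h3 : E i j = U i j * ((η / (1 + η * |l₁ j|) : ℝ) : ℂ) -
        ((η / (1 + η * |l₀ i|) : ℝ) : ℂ) * (U i j + V i j * (l₁ j : ℂ)) := by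
      rw [hE]
      simp only [dg, diagonal_mul, mul_diagonal, Matrix.add_apply, Matrix.sub_apply]
    rw [h3]
    exact h2
  have e1 : rtr (K * (T₀ * E * T₁ᴴ)) = rtr (T₁ᴴ * K * T₀ * E) := by
    rw [show K * (T₀ * E * T₁ᴴ) = (K * T₀ * E) * T₁ᴴ by simp only [Matrix.mul_assoc],
      rtr_mul_comm]
    simp only [Matrix.mul_assoc]
  have e2 : rtr (T₁ᴴ * K * T₀ * (T₁ᴴ * K * T₀)ᴴ) = rtr (K * (T₀ * T₀ᴴ) * Kᴴ * (T₁ * T₁ᴴ)) := by
    simp only [conjTranspose_mul, conjTranspose_conjTranspose]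
    rw [show T₁ᴴ * K * T₀ * (T₀ᴴ * (Kᴴ * T₁)) = T₁ᴴ * (K * T₀ * T₀ᴴ * Kᴴ * T₁) by
      simp only [Matrix.mul_assoc], rtr_mul_comm]
    simp only [Matrix.mul_assoc]
  have e3 : rtr (V * Vᴴ) = rtr (Y * H₁ * Yᴴ * (T₀ * T₀ᴴ)) := by
    have : V * Vᴴ = T₀ᴴ * (Y * H₁ * Yᴴ * T₀) := by
      rw [hV]
      simp only [conjTranspose_mul, conjTranspose_conjTranspose, hH₁.eq]
      calc T₀ᴴ * Y * H₁ * T₁ * (T₁ᴴ * (H₁ * (Yᴴ * T₀))) =
          T₀ᴴ * Y * (H₁ * T₁ * T₁ᴴ) * H₁ * (Yᴴ * T₀) := by simp only [Matrix.mul_assoc]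
        _ = _ := by rw [i₁', Matrix.mul_one]; simp only [Matrix.mul_assoc]
    rw [this, rtr_mul_comm]
    simp only [Matrix.mul_assoc]
  rw [hS, e1, ← e2, ← e3]
  exact rtr_mul_le hent

end

end Pool.Agent.A1
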