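import Pool.Agent.Lib_helper59.A1.Stmts
import Pool.Agent.Lib_helper28.A1.Sgn

/-!
# MP_859019, project A1, block SGN in the common letters
-/

set_option autoImplicit false
set_option linter.unusedSectionVars false
set_option linter.unusedVariables false

open scoped BigOperators ComplexOrder Kronecker MatrixOrder
open MeasureTheory Set Matrix

namespace Pool.Agent.A1W

open Pool.Agent.RC Pool.Agent.A1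
open Pool.Agent.Lib_helper59.Lieb (rtr rtr_add rtr_sub rtr_smul rtr_mul_comm dg)

section

variable {ι κ : Type} [Fintype ι] [DecidableEq ι] [Fintype κ] [DecidableEq κ]
variable {R₁ D₁ : Matrix ι ι ℂ} {R₂ D₂ : Matrix κ κ ℂ}

theorem Jc_det_unit (h₁ : SPair R₁ D₁) {c : ℝ} (hc : c ∈ Icc (-1 : ℝ) 1)
    (hdet : IsUnit (Wc R₂ D₂ c).det) : IsUnit (Jc R₁ D₁ R₂ D₂ c).det := by
  have h1 : IsUnit (Xc R₁ D₁ c).det :=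
    (Matrix.isUnit_iff_isUnit_det _).1 (Xc_posDef h₁ hc).isUnit
  rw [Jc, det_kronecker]
  exact (h1.pow _).mul (hdet.pow _)

theorem Nt_path (c e t : ℝ) :
    Nt R₁ D₁ R₂ D₂ c e 0 + (t * e) • Dc D₁ R₂ D₂ c = Nt R₁ D₁ R₂ D₂ c e t := by
  have h1 : (t * e) • Dc D₁ R₂ D₂ c = ((t * e : ℝ) : ℂ) • Dc D₁ R₂ D₂ c :=
    (coe_smul_mat _ _).symm
  rw [h1]
  unfold Nt Mt
  push_cast
  module

theorem Nt_path_one (c e : ℝ) :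
    Nt R₁ D₁ R₂ D₂ c e 0 + e • Dc D₁ R₂ D₂ c = Nt R₁ D₁ R₂ D₂ c e 1 := by
  have := Nt_path (R₁ := R₁) (D₁ := D₁) (R₂ := R₂) (D₂ := D₂) c e 1
  rwa [one_mul] at this

theorem shift_letters (h₁ : SPair R₁ D₁) (h₂ : SPair R₂ D₂) {c e : ℝ} (hc : c ∈ Ioo (-1 : ℝ) 1)
    (he : 0 ≤ e) :
    ((2 : ℝ) • (Nt R₁ D₁ R₂ D₂ c e 0 + (-(e * (c / (1 - c ^ 2)))) • Jc R₁ D₁ R₂ D₂ c) -
      (Nt R₁ D₁ R₂ D₂ c e 0 + e • Dc D₁ R₂ D₂ c)).PosSemidef := by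
  have h := shift_pos (R₁ := R₁) (D₁ := D₁) (R₂ := R₂) (D₂ := D₂) (c := c) (z := e) hc.1 hc.2 he
    h₁.add.posSemidef h₁.sub.posSemidef h₂.add.posSemidef h₂.sub.posSemidef
  have e1 : Nt R₁ D₁ R₂ D₂ c e 0 + e • Dc D₁ R₂ D₂ c = 1 + e • (R₁ ⊗ₖ R₂ + D₁ ⊗ₖ D₂) := by
    rw [Nt_path_one, Nt, Mt_one, coe_smul_mat]
  have e2 : Nt R₁ D₁ R₂ D₂ c e 0 = 1 + e • ((R₁ + c • D₁) ⊗ₖ R₂) := by
    rw [Nt, Mt, Xc, coe_smul_mat, coe_smul_mat, Complex.ofReal_zero, zero_smul, add_zero]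
  have e3 : Jc R₁ D₁ R₂ D₂ c = (R₁ + c • D₁) ⊗ₖ (D₂ - c • R₂) := by
    rw [Jc, Xc, Wc, coe_smul_mat, coe_smul_mat]
  rw [e1, e2, e3]
  exact h

end

/-- **block SGN** -/
theorem sgn_stmt (hwi : WIStmt) : SGNStmt := by
  intro ι κ _ _ _ _ R₁ D₁ R₂ D₂ h₁ h₂ c hc hdet e he α hα hα2
  have hcI : c ∈ Icc (-1 : ℝ) 1 := ⟨hc.1.le, hc.2.le⟩
  have hJ := Jc_herm h₁ h₂ c
  have hD := Dc_herm h₁ h₂ c
  have hJu : (Jc R₁ D₁ R₂ D₂ c).det ≠ 0 := (Jc_det_unit h₁ hcI hdet).ne_zero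
  have hN : ∀ t ∈ Icc (0 : ℝ) 1, (Nt R₁ D₁ R₂ D₂ c e t).PosDef := fun t ht =>
    Nt_posDef h₁ h₂ hcI he.le ht
  have hex : ∀ t ∈ Icc (0 : ℝ) 1, ∃ S, IsS (Jc R₁ D₁ R₂ D₂ c) (Nt R₁ D₁ R₂ D₂ c e t) S :=
    fun t ht => exists_isS (hN t ht) hJ hJu
  choose! S hS using hex
  have hp : ∀ t ∈ Icc (0 : ℝ) 1, pc R₁ D₁ R₂ D₂ c e t = rtr (Dc D₁ R₂ D₂ c * S t) := by
    intro t ht
    exact ((hwi (ι × κ) (Nt R₁ D₁ R₂ D₂ c e t) (Jc R₁ D₁ R₂ D₂ c) (Dc D₁ R₂ D₂ c) (hN t ht) hJ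
      hD).2.1 (S t) (hS t ht)).2
  have hpa : pa R₁ D₁ R₂ D₂ c e = ∫ t in (0 : ℝ)..1, rtr (Dc D₁ R₂ D₂ c * S t) := by
    rw [pa]
    refine intervalIntegral.integral_congr fun t ht => ?_
    rw [uIcc_of_le zero_le_one] at ht
    exact hp t ht
  have hN' : ∀ t ∈ Icc (0 : ℝ) 1,
      (Nt R₁ D₁ R₂ D₂ c e 0 + (t * e) • Dc D₁ R₂ D₂ c).PosSemidef := by
    intro t ht
    rw [Nt_path]
    exact (hN t ht).posSemidef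
  have hS' : ∀ t ∈ Icc (0 : ℝ) 1,
      IsS (Jc R₁ D₁ R₂ D₂ c) (Nt R₁ D₁ R₂ D₂ c e 0 + (t * e) • Dc D₁ R₂ D₂ c) (S t) := by
    intro t ht
    rw [Nt_path]
    exact hS t ht
  have hsig := path_signs he hJ hN' hS'
  have hsgn := path_sgn he hJ hN' hS' (-(e * (c / (1 - c ^ 2)))) (shift_letters h₁ h₂ hc he.le) hα2
  rw [hpa, hp 0 ⟨le_rfl, zero_le_one⟩, hp 1 ⟨zero_le_one, le_rfl⟩]
  exact ⟨hsig.2, hsgn⟩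

end Pool.Agent.A1W
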