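import Pool.Agent.Lib_helper59.Lieb.Basic

/-!
# MP_859019, project A1: the geometric mean `S_J(H)` and the lemma T3

`S = S_J(H)` is the positive definite solution of `S J S = J⁻¹`, `S H S = J⁻¹ H J⁻¹`, written here
without inverses. The lemma T3: if `H₁ ≤ H₂` then `Tr (H₁ + H₂)(S₁ - S₂) ≥ 0`; it is an exact
identity with two squares.
-/

set_option autoImplicit false
set_option linter.unusedSectionVars false
set_option linter.unusedVariables false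

open scoped ComplexOrder

namespace Pool.Agent.A1

open Matrix
open Pool.Agent.Lib_helper59.Lieb (rtr rtr_add rtr_sub rtr_smul rtr_mul_comm)

variable {n : Type*} [Fintype n] [DecidableEq n]

/-- `S` is the geometric mean `H⁻¹ # (J⁻¹ H J⁻¹)` -/
structure IsS (J H S : Matrix n n ℂ) : Prop where
  pos : S.PosDef
  inv : J * S * J * S = 1
  rel : J * S * H * S * J = H

section

variable {J H H₁ H₂ S S₁ S₂ : Matrix n n ℂ}

theorem IsS.inv' (h : IsS J H S) : S * (J * S * J) = 1 :=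
  mul_eq_one_comm.1 h.inv

theorem IsS.inv'' (h : IsS J H S) : (J * S * J) * S = 1 := h.inv

theorem IsS.smul (h : IsS J H S) (c : ℝ) : IsS J (c • H) S := by
  refine ⟨h.pos, h.inv, ?_⟩
  rw [Matrix.mul_smul, Matrix.smul_mul, Matrix.smul_mul, h.rel]

theorem IsS.add_J (h : IsS J H S) (s : ℝ) : IsS J (H + s • J) S := by
  refine ⟨h.pos, h.inv, ?_⟩
  have e1 : J * S * J * S * J = J := by rw [h.inv, Matrix.one_mul]
  rw [Matrix.mul_add, Matrix.mul_smul, Matrix.add_mul, Matrix.add_mul, Matrix.smul_mul,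
    Matrix.smul_mul, h.rel, e1]

theorem rtr_nonneg {A : Matrix n n ℂ} (hA : A.PosSemidef) : 0 ≤ rtr A := by
  have := hA.trace_nonneg
  rw [Complex.le_def] at this
  exact this.1

open scoped MatrixOrder in
theorem exists_factor {B : Matrix n n ℂ} (hB : B.PosSemidef) : ∃ C : Matrix n n ℂ, B = Cᴴ * C := by
  obtain ⟨C, hC⟩ := CStarAlgebra.nonneg_iff_eq_star_mul_self.mp hB.nonneg
  exact ⟨C, hC⟩

/-- the trace of a product of two positive semidefinite matrices -/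
theorem rtr_mul_nonneg {A B : Matrix n n ℂ} (hA : A.PosSemidef) (hB : B.PosSemidef) :
    0 ≤ rtr (A * B) := by
  obtain ⟨C, rfl⟩ := exists_factor hB
  have e1 : rtr (A * (Cᴴ * C)) = rtr (C * A * Cᴴ) := by
    rw [← Matrix.mul_assoc, rtr_mul_comm, ← Matrix.mul_assoc]
  rw [e1]
  exact rtr_nonneg (hA.mul_mul_conjTranspose_same C)

/-- `Tr J S₁ = Tr J S₂` -/
theorem rtr_J_eq (h₁ : IsS J H₁ S₁) (h₂ : IsS J H₂ S₂) : rtr (J * S₁) = rtr (J * S₂) := by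
  have hJ : J * (S₁ * J * S₁) = 1 := by
    rw [← Matrix.mul_assoc, ← Matrix.mul_assoc]
    exact h₁.inv
  have hJ' : (S₁ * J * S₁) * J = 1 := mul_eq_one_comm.1 hJ
  have hS : (S₁ + S₂).PosDef := h₁.pos.add h₂.pos
  have hSu : IsUnit (S₁ + S₂).det := (Matrix.isUnit_iff_isUnit_det _).1 hS.isUnit
  set P : Matrix n n ℂ := J * (S₁ + S₂) with hP
  set P' : Matrix n n ℂ := (S₁ + S₂)⁻¹ * (S₁ * J * S₁) with hP'
  have h1 : P * P' = 1 := by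
    rw [hP, hP', Matrix.mul_assoc, ← Matrix.mul_assoc (S₁ + S₂), Matrix.mul_nonsing_inv _ hSu,
      Matrix.one_mul, hJ]
  have h2 : P' * P = 1 := mul_eq_one_comm.1 h1
  have e1 : J * S₁ * (J * S₁) = 1 := by rw [← Matrix.mul_assoc]; exact h₁.inv
  have e2 : J * S₂ * (J * S₂) = 1 := by rw [← Matrix.mul_assoc]; exact h₂.inv
  have h3 : P * (J * S₁ - J * S₂) = -((J * S₁ - J * S₂) * P) := by
    rw [hP, Matrix.mul_add, Matrix.add_mul, Matrix.mul_sub, Matrix.mul_sub, Matrix.sub_mul,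
      Matrix.mul_add, Matrix.mul_add, e1, e2]
    abel
  have h4 : rtr (J * S₁ - J * S₂) = - rtr (J * S₁ - J * S₂) := by
    calc rtr (J * S₁ - J * S₂) = rtr (P' * (P * (J * S₁ - J * S₂))) := by
          rw [← Matrix.mul_assoc, h2, Matrix.one_mul]
      _ = rtr (P' * (-((J * S₁ - J * S₂) * P))) := by rw [h3]
      _ = - rtr (P' * ((J * S₁ - J * S₂) * P)) := by
          rw [Matrix.mul_neg, ← neg_one_smul ℝ, rtr_smul, neg_one_mul]
      _ = - rtr ((J * S₁ - J * S₂) * (P * P')) := by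
          rw [rtr_mul_comm, Matrix.mul_assoc]
      _ = - rtr (J * S₁ - J * S₂) := by rw [h1, Matrix.mul_one]
  rw [rtr_sub] at h4
  linarith

/-- the first square -/
theorem id_one (h₁ : IsS J H₁ S₁) (h₂ : IsS J H₂ S₂) :
    rtr (H₂ * ((S₂ - S₁) * (J * S₁ * J) * (S₂ - S₁))) = 2 * rtr (H₂ * S₁) - 2 * rtr (H₂ * S₂) := by
  have e1 : (S₂ - S₁) * (J * S₁ * J) * (S₂ - S₁) = S₂ * (J * S₁ * J) * S₂ - S₂ - S₂ + S₁ := by
    have a1 : S₂ * (J * S₁ * J) * S₁ = S₂ := by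
      rw [Matrix.mul_assoc, h₁.inv'', Matrix.mul_one]
    have a2 : S₁ * (J * S₁ * J) * S₂ = S₂ := by rw [h₁.inv', Matrix.one_mul]
    have a3 : S₁ * (J * S₁ * J) * S₁ = S₁ := by rw [h₁.inv', Matrix.one_mul]
    rw [Matrix.sub_mul, Matrix.sub_mul, Matrix.mul_sub, Matrix.mul_sub, a1, a2, a3]
    abel
  have e2 : rtr (H₂ * (S₂ * (J * S₁ * J) * S₂)) = rtr (H₂ * S₁) := by
    calc rtr (H₂ * (S₂ * (J * S₁ * J) * S₂)) = rtr ((H₂ * S₂ * J * S₁) * (J * S₂)) := by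
          simp only [Matrix.mul_assoc]
      _ = rtr ((J * S₂) * (H₂ * S₂ * J * S₁)) := rtr_mul_comm _ _
      _ = rtr (J * S₂ * H₂ * S₂ * J * S₁) := by simp only [Matrix.mul_assoc]
      _ = rtr (H₂ * S₁) := by rw [h₂.rel]
  rw [e1, Matrix.mul_add, Matrix.mul_sub, Matrix.mul_sub, rtr_add, rtr_sub, rtr_sub, e2]
  ring

/-- the second square -/
theorem id_two (h₁ : IsS J H₁ S₁) (h₂ : IsS J H₂ S₂) :
    rtr (H₁ * ((S₂ + S₁ * (J * S₂ * J) * S₁ - (2 : ℝ) • S₁) * (J * S₁ * J) *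
      (S₂ + S₁ * (J * S₂ * J) * S₁ - (2 : ℝ) • S₁))) =
    2 * rtr (H₁ * (S₂ * (J * S₁ * J) * S₂)) + 6 * rtr (H₁ * S₁) - 8 * rtr (H₁ * S₂) := by
  set I₁ := J * S₁ * J with hI₁
  set I₂ := J * S₂ * J with hI₂
  have i1 : S₁ * I₁ = 1 := h₁.inv'
  have i1' : I₁ * S₁ = 1 := h₁.inv''
  have i2 : S₂ * I₂ = 1 := h₂.inv'
  have i2' : I₂ * S₂ = 1 := h₂.inv''
  have e1 : (S₂ + S₁ * I₂ * S₁ - (2 : ℝ) • S₁) * I₁ * (S₂ + S₁ * I₂ * S₁ - (2 : ℝ) • S₁) =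
      S₂ * I₁ * S₂ + S₁ * I₂ * S₁ * I₂ * S₁ + (6 : ℝ) • S₁ - (4 : ℝ) • S₂ -
        (4 : ℝ) • (S₁ * I₂ * S₁) := by
    have b1 : (S₂ + S₁ * I₂ * S₁ - (2 : ℝ) • S₁) * I₁ = S₂ * I₁ + S₁ * I₂ - (2 : ℝ) • 1 := by
      rw [Matrix.sub_mul, Matrix.add_mul, Matrix.smul_mul, i1, Matrix.mul_assoc (S₁ * I₂), i1,
        Matrix.mul_one]
    have c1 : S₂ * I₁ * (S₁ * I₂ * S₁) = S₁ := by
      rw [Matrix.mul_assoc S₂, Matrix.mul_assoc S₁, ← Matrix.mul_assoc I₁, i1', Matrix.one_mul,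
        ← Matrix.mul_assoc, i2, Matrix.one_mul]
    have c2 : S₁ * I₂ * S₂ = S₁ := by rw [Matrix.mul_assoc, i2', Matrix.mul_one]
    have c3 : S₂ * I₁ * S₁ = S₂ := by rw [Matrix.mul_assoc, i1', Matrix.mul_one]
    have c4 : S₁ * I₂ * (S₁ * I₂ * S₁) = S₁ * I₂ * S₁ * I₂ * S₁ := by
      simp only [Matrix.mul_assoc]
    rw [b1]
    simp only [Matrix.sub_mul, Matrix.add_mul, Matrix.mul_sub, Matrix.mul_add, Matrix.mul_smul,
      Matrix.smul_mul, Matrix.one_mul, c1, c2, c3, c4]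
    module
  have e2 : rtr (H₁ * (S₁ * I₂ * S₁)) = rtr (H₁ * S₂) := by
    calc rtr (H₁ * (S₁ * I₂ * S₁)) = rtr ((H₁ * S₁ * J * S₂) * (J * S₁)) := by
          rw [hI₂]
          simp only [Matrix.mul_assoc]
      _ = rtr ((J * S₁) * (H₁ * S₁ * J * S₂)) := rtr_mul_comm _ _
      _ = rtr (J * S₁ * H₁ * S₁ * J * S₂) := by simp only [Matrix.mul_assoc]
      _ = rtr (H₁ * S₂) := by rw [h₁.rel]
  have e3 : rtr (H₁ * (S₁ * I₂ * S₁ * I₂ * S₁)) = rtr (H₁ * (S₂ * I₁ * S₂)) := by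
    calc rtr (H₁ * (S₁ * I₂ * S₁ * I₂ * S₁))
        = rtr ((H₁ * S₁ * J * S₂ * (J * S₁ * J) * S₂) * (J * S₁)) := by
          rw [hI₂]
          simp only [Matrix.mul_assoc]
      _ = rtr ((J * S₁) * (H₁ * S₁ * J * S₂ * (J * S₁ * J) * S₂)) := rtr_mul_comm _ _
      _ = rtr (J * S₁ * H₁ * S₁ * J * (S₂ * (J * S₁ * J) * S₂)) := by
          simp only [Matrix.mul_assoc]
      _ = rtr (H₁ * (S₂ * I₁ * S₂)) := by rw [h₁.rel, hI₁]
  rw [e1]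
  simp only [Matrix.mul_add, Matrix.mul_sub, Matrix.mul_smul, rtr_add, rtr_sub, rtr_smul]
  rw [e2, e3]
  ring

/-- T3 as an identity -/
theorem t3_identity (h₁ : IsS J H₁ S₁) (h₂ : IsS J H₂ S₂) :
    4 * rtr ((H₁ + H₂) * (S₁ - S₂)) =
      2 * rtr ((H₂ - H₁) * ((S₂ - S₁) * (J * S₁ * J) * (S₂ - S₁))) +
      rtr (H₁ * ((S₂ + S₁ * (J * S₂ * J) * S₁ - (2 : ℝ) • S₁) * (J * S₁ * J) *
        (S₂ + S₁ * (J * S₂ * J) * S₁ - (2 : ℝ) • S₁))) := by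
  have a1 := id_one h₁ h₂
  have a2 := id_two h₁ h₂
  have a3 : rtr (H₁ * ((S₂ - S₁) * (J * S₁ * J) * (S₂ - S₁))) =
      rtr (H₁ * (S₂ * (J * S₁ * J) * S₂)) - 2 * rtr (H₁ * S₂) + rtr (H₁ * S₁) := by
    have e1 : (S₂ - S₁) * (J * S₁ * J) * (S₂ - S₁) = S₂ * (J * S₁ * J) * S₂ - S₂ - S₂ + S₁ := by
      have a1 : S₂ * (J * S₁ * J) * S₁ = S₂ := by
        rw [Matrix.mul_assoc, h₁.inv'', Matrix.mul_one]
      have a2 : S₁ * (J * S₁ * J) * S₂ = S₂ := by rw [h₁.inv', Matrix.one_mul]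
      have a3 : S₁ * (J * S₁ * J) * S₁ = S₁ := by rw [h₁.inv', Matrix.one_mul]
      rw [Matrix.sub_mul, Matrix.sub_mul, Matrix.mul_sub, Matrix.mul_sub, a1, a2, a3]
      abel
    rw [e1, Matrix.mul_add, Matrix.mul_sub, Matrix.mul_sub, rtr_add, rtr_sub, rtr_sub]
    ring
  rw [a2, Matrix.sub_mul H₂ H₁, rtr_sub, a1, a3, Matrix.add_mul, Matrix.mul_sub, Matrix.mul_sub,
    rtr_add, rtr_sub, rtr_sub]
  ring

/-- the lemma T3 -/
theorem t3 (hJ : J.IsHermitian) (hH₁ : H₁.PosSemidef) (h₁ : IsS J H₁ S₁) (h₂ : IsS J H₂ S₂)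
    (h₁₂ : (H₂ - H₁).PosSemidef) : 0 ≤ rtr ((H₁ + H₂) * (S₁ - S₂)) := by
  have hp : ∀ D : Matrix n n ℂ, D.IsHermitian → (D * (J * S₁ * J) * D).PosSemidef := by
    intro D hD
    have h3 := h₁.pos.posSemidef.mul_mul_conjTranspose_same (D * J)
    have e : D * J * S₁ * (D * J)ᴴ = D * (J * S₁ * J) * D := by
      rw [conjTranspose_mul, hJ.eq, hD.eq]
      simp only [Matrix.mul_assoc]
    rwa [e] at h3
  have hD : (S₂ - S₁).IsHermitian := h₂.pos.1.sub h₁.pos.1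
  have hW : (S₂ + S₁ * (J * S₂ * J) * S₁ - (2 : ℝ) • S₁).IsHermitian := by
    have a1 : (S₁ * (J * S₂ * J) * S₁).IsHermitian := by
      show (S₁ * (J * S₂ * J) * S₁)ᴴ = _
      simp only [conjTranspose_mul, hJ.eq, h₁.pos.1.eq, h₂.pos.1.eq, Matrix.mul_assoc]
    have a2 : ((2 : ℝ) • S₁).IsHermitian := by
      show ((2 : ℝ) • S₁)ᴴ = _
      rw [conjTranspose_smul, h₁.pos.1.eq]
      simp
    exact (h₂.pos.1.add a1).sub a2
  have h4 := rtr_mul_nonneg h₁₂ (hp _ hD)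
  have h5 := rtr_mul_nonneg hH₁ (hp _ hW)
  have h6 := t3_identity h₁ h₂
  linarith

/-- the form used in A1: `2 Q - B ≥ 0` -/
theorem t3_two (hJ : J.IsHermitian) {H₀ S₀ : Matrix n n ℂ} (s : ℝ) (hH₁ : H₁.PosSemidef)
    (h₀ : IsS J H₀ S₀) (h₁ : IsS J H₁ S₁) (h : ((2 : ℝ) • (H₀ + s • J) - H₁).PosSemidef) :
    0 ≤ rtr (((2 : ℝ) • H₀ + H₁) * (S₁ - S₀)) := by
  have a1 : IsS J ((1 / 2 : ℝ) • H₁) S₁ := h₁.smul _
  have a2 : IsS J (H₀ + s • J) S₀ := h₀.add_J s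
  have a3 : ((1 / 2 : ℝ) • H₁).PosSemidef := hH₁.smul (by norm_num)
  have a4 : (H₀ + s • J - (1 / 2 : ℝ) • H₁).PosSemidef := by
    have := h.smul (α := ℝ) (by norm_num : (0 : ℝ) ≤ 1 / 2)
    have e : (1 / 2 : ℝ) • ((2 : ℝ) • (H₀ + s • J) - H₁) = H₀ + s • J - (1 / 2 : ℝ) • H₁ := by
      module
    rwa [e] at this
  have a5 := t3 hJ a3 a1 a2 a4
  have a6 := rtr_J_eq h₁ h₀
  have e : ((1 / 2 : ℝ) • H₁ + (H₀ + s • J)) * (S₁ - S₀) =
      (1 / 2 : ℝ) • (((2 : ℝ) • H₀ + H₁) * (S₁ - S₀)) + s • (J * S₁ - J * S₀) := by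
    rw [← Matrix.mul_sub, Matrix.add_mul, Matrix.add_mul, Matrix.add_mul, Matrix.smul_mul,
      Matrix.smul_mul, Matrix.smul_mul]
    module
  rw [e, rtr_add, rtr_smul, rtr_smul, rtr_sub, a6, sub_self, mul_zero, add_zero] at a5
  linarith

end

end Pool.Agent.A1
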